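import Pool.Agent.Mg.F95da86.G689864

namespace Pool.Agent.Results.MP_95da86_ag.Beauville

open Pool.Agent.MP_95da86_ag

/-- `P` is a fundamental domain in `C` for the maps `g ∈ A` with graphs `R g`. -/
def IsFund {V G : Type} [TopologicalSpace V] (C P : Set V) (A : G → Prop) (R : G → V → V → Prop) :
    Prop :=
  C = ⋃ g ∈ {g | A g}, {e | ∃ d ∈ P, R g d e} ∧
    ∀ g, A g → (¬ ∀ d, R g d d) → interior P ∩ interior {e | ∃ d ∈ P, R g d e} = ∅

/-- There is a fundamental domain which is a cone spanned by finitely many elements of `D`. -/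
def HasFund {I G : Type} (D : Set (I → ℝ)) (C : Set (Submodule.span ℝ D)) (A : G → Prop)
    (R : G → Submodule.span ℝ D → Submodule.span ℝ D → Prop) : Prop :=
  ∃ S : Finset (Submodule.span ℝ D), (∀ d ∈ S, d.1 ∈ D) ∧
    IsFund C (Submodule.span NNReal (S : Set (Submodule.span ℝ D))) A R

/-- The cone conjecture for the model `X`. -/
def ConeConj {K : Type} [Field K] [Algebra ℂ K] (X : Set (Pt K)) : Prop :=
  HasFund (classes X) (nefEff X) (IsAut X) Pull

theorem result (L : Type) [Field L] [Algebra ℂ L] (x y : Fin 3 → L) (σ : L ≃ₐ[ℂ] L)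
    (hx : AlgebraicIndependent ℂ x) (hE : ∀ i, y i ^ 2 = x i ^ 3 + 1)
    (hL : IntermediateField.adjoin ℂ (Set.range x ∪ Set.range y) = ⊤)
    (hσ : ∀ i, σ (x i) = Complex.exp (2 * Real.pi * Complex.I / 3) • x i ∧ σ (y i) = y i) :
    ConeConj (quot x y σ) :=
  cone_of_geo (cfg_of x y σ hx hE hL hσ).geo rfl rfl rfl

end Pool.Agent.Results.MP_95da86_ag.Beauville
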